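import Pool.Agent.Q38.IF.Saito

set_option autoImplicit false

/-!
# The arrangement of twelve planes is inductively free
-/

namespace Pool.Agent.Q38.IndFree

open MvPolynomial Pool.Agent.Q39.POG
open Pool.Agent.Results.MP_8050b7_ag.ContainmentFails (du dw ma mb lp mp mem_lp mem_mp
  Arr mem_Arr finrank_lp finrank_mp lp_vec_ne mp_vec_ne Arr_hyp)

variable {n : ℕ}

theorem linearForm_two (a b : ℂ) : (linearForm ![a, b]) = C a * X 0 + C b * X 1 := by
  simp [linearForm, Fin.sum_univ_two]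

theorem linearForm_three (a b c : ℂ) :
    (linearForm ![a, b, c]) = C a * X 0 + C b * X 1 + C c * X 2 := by
  simp [linearForm, Fin.sum_univ_three]

/-! ### general facts -/

theorem hasExp_empty (n : ℕ) :
    HasExp (∅ : Finset (Submodule ℂ (Fin n → ℂ))) (Multiset.replicate n 0) := by
  have h := hasExp_of_det (A := (∅ : Finset (Submodule ℂ (Fin n → ℂ)))) (ι := Empty)
    (fun i => i.elim) (fun i => i.elim) (fun i => i.elim) (by simp) 1 (fun _ i => i.elim)
    (fun _ => 0) (by
      intro r j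
      rw [Matrix.one_apply]
      split_ifs
      · exact isHomogeneous_one _ _
      · exact isHomogeneous_zero _ _ _) (by simp)
  simpa using h

theorem comap_hyperplane {m : ℕ} (f : (Fin m → ℂ) →ₗ[ℂ] (Fin n → ℂ)) (a : Fin n → ℂ) :
    (hyperplane a).comap f = hyperplane (fun j => ∑ i, a i * f (Pi.single j 1) i) := by
  ext x
  rw [Submodule.mem_comap, mem_hyp, mem_hyp]
  have h1 : f x = ∑ j, x j • f (Pi.single j 1) := by
    conv_lhs => rw [pi_eq_sum_univ' x]
    rw [map_sum]
    exact Finset.sum_congr rfl fun j _ => map_smul _ _ _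
  have h2 : ∑ j, a j * f x j = ∑ j, (∑ i, a i * f (Pi.single j 1) i) * x j := by
    rw [h1]
    simp only [Finset.sum_apply, Pi.smul_apply, smul_eq_mul, Finset.mul_sum, Finset.sum_mul]
    rw [Finset.sum_comm]
    exact Finset.sum_congr rfl fun j _ => Finset.sum_congr rfl fun i _ => by ring
  rw [h2]

theorem isHyperplane_hyperplane {a : Fin n → ℂ} (h : a ≠ 0) : IsHyperplane (hyperplane a) := by
  refine ⟨_, ?_, rfl⟩
  intro h0
  apply h
  funext i
  have := congrArg (fun f => f (Pi.single i 1)) h0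
  simpa [Pi.single_apply] using this

theorem hyperplane_zero : hyperplane (0 : Fin n → ℂ) = ⊤ := by
  ext x; rw [mem_hyp]; simp

theorem finrank_hyperplane {a : Fin (n + 1) → ℂ} (h : a ≠ 0) :
    Module.finrank ℂ (hyperplane a) = n := by
  obtain ⟨α, hα, hK⟩ := isHyperplane_hyperplane h
  have := Module.Dual.finrank_ker_add_one_of_ne_zero hα
  rw [Module.finrank_fin_fun] at this
  rw [hK]
  omega

theorem exists_coord {a : Fin (n + 1) → ℂ} (h : a ≠ 0) :
    Nonempty ((Fin n → ℂ) ≃ₗ[ℂ] hyperplane a) := by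
  refine ⟨LinearEquiv.ofFinrankEq _ _ ?_⟩
  rw [Module.finrank_fin_fun, finrank_hyperplane h]

/-- the restriction of a single hyperplane is empty -/
theorem restr_singleton {m : ℕ} (H : Submodule ℂ (Fin n → ℂ)) (e : (Fin m → ℂ) ≃ₗ[ℂ] H) :
    restr {H} H e = ∅ := by
  classical
  simp [restr]

theorem indFree_singleton {a : Fin (n + 1) → ℂ} (h : a ≠ 0) :
    InductivelyFree (n + 1) {hyperplane a} := by
  classical
  obtain ⟨e⟩ := exists_coord h
  refine .add n _ ?_ (hyperplane a) (Finset.mem_singleton_self _) e ?_ ?_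
    (Multiset.replicate (n + 1) 0) (Multiset.replicate n 0) ?_ ?_ ?_
  · intro K hK
    rw [Finset.mem_singleton] at hK
    rw [hK]
    exact isHyperplane_hyperplane h
  · rw [Finset.erase_singleton]; exact .empty _
  · rw [restr_singleton]; exact .empty n
  · rw [Finset.erase_singleton]; exact hasExp_empty _
  · rw [restr_singleton]; exact hasExp_empty _
  · exact Multiset.replicate_le_replicate _ |>.2 (Nat.le_succ n)

theorem hasExp_one : HasExp ({⊥} : Finset (Submodule ℂ (Fin 1 → ℂ))) {1} := by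
  have hb : ∀ v : Fin 1 → ℂ, v ∈ hyperplane (![1] : Fin 1 → ℂ) ↔ v = 0 := by
    intro v
    rw [mem_hyp]
    simp only [Fin.sum_univ_one, Matrix.cons_val_fin_one, one_mul]
    constructor
    · intro h; funext i; fin_cases i; exact h
    · rintro rfl; rfl
  have hbot : hyperplane (![1] : Fin 1 → ℂ) = ⊥ := by
    ext v; rw [hb, Submodule.mem_bot]
  have h := hasExp_of_det (A := {⊥}) (ι := Unit) (fun _ => (![1] : Fin 1 → ℂ))
    (fun _ h => by simpa using congrFun h 0) (fun _ _ _ => rfl)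
    (by intro H; simp [hbot, eq_comm]) (Matrix.of fun _ _ => X 0) (fun _ _ => by
      simp [linearForm]) (fun _ => 1) (fun _ _ => isHomogeneous_X _ _) (by
      simp [linearForm])
  simpa using h

theorem hasExp_single {a b : ℂ} (h : (![a, b] : Fin 2 → ℂ) ≠ 0) :
    HasExp {hyperplane ![a, b]} (1 ::ₘ 0 ::ₘ 0) := by
  have := hasExp_of_det (A := {hyperplane ![a, b]}) (ι := Unit) (fun _ => (![a, b] : Fin 2 → ℂ))
    (fun _ => h) (fun _ _ _ => rfl) (by intro H; simp [eq_comm])
    !![X 0, X 1; C (-b), C a] (fun r _ => by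
      fin_cases r
      · simp [linearForm_two]
      · simp [Fin.sum_univ_two, mul_comm])
    ![1, 0] (fun r j => by
      fin_cases r <;> fin_cases j
      · exact isHomogeneous_X _ _
      · exact isHomogeneous_X _ _
      · exact isHomogeneous_C _ _
      · exact isHomogeneous_C _ _) (by
      rw [Matrix.det_fin_two_of, linearForm_two]
      simp; ring)
  exact this

/-! ### lines in the plane -/

def l2 (i : Fin 7) : Fin 2 → ℂ := ![dw i, -du i]
def l3 (i : Fin 7) : Fin 3 → ℂ := ![dw i, -du i, 0]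
def m3 (j : Fin 5) : Fin 3 → ℂ := ![-ma j, -mb j, 1]

theorem l2_ne (i : Fin 7) : l2 i ≠ 0 := by
  intro h
  apply lp_vec_ne i
  have h0 := congrFun h 0
  have h1 := congrFun h 1
  funext j
  fin_cases j
  · simpa [l2] using h0
  · simpa [l2] using h1
  · rfl

theorem l3_ne (i : Fin 7) : l3 i ≠ 0 := lp_vec_ne i
theorem m3_ne (j : Fin 5) : m3 j ≠ 0 := mp_vec_ne j

theorem hyp_l3 (i : Fin 7) : hyperplane (l3 i) = lp i := by
  ext v
  rw [mem_hyp, mem_lp, Fin.sum_univ_three]
  simp only [l3, Matrix.cons_val_zero, Matrix.cons_val_one, Matrix.cons_val]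
  constructor
  · intro h; linear_combination h
  · intro h; linear_combination h

theorem hyp_m3 (j : Fin 5) : hyperplane (m3 j) = mp j := by
  ext v
  rw [mem_hyp, mem_mp, Fin.sum_univ_three]
  simp only [m3, Matrix.cons_val_zero, Matrix.cons_val_one, Matrix.cons_val]
  constructor
  · intro h; linear_combination h
  · intro h; linear_combination h

theorem mem_l2 (i : Fin 7) (v : Fin 2 → ℂ) : v ∈ hyperplane (l2 i) ↔ dw i * v 0 = du i * v 1 := by
  rw [mem_hyp, Fin.sum_univ_two]
  simp only [l2, Matrix.cons_val_zero, Matrix.cons_val_one]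
  constructor
  · intro h; linear_combination h
  · intro h; linear_combination h

/-- the seven directions are distinct -/
theorem det_ne {i k : Fin 7} (h : i ≠ k) : dw i * du k - dw k * du i ≠ 0 := by
  fin_cases i <;> fin_cases k <;> first
    | exact absurd rfl h
    | (simp only [du, dw, Fin.zero_eta, Fin.mk_one, Matrix.cons_val_zero, Matrix.cons_val_one,
        Matrix.cons_val, Fin.reduceFinMk]; norm_num)

theorem l2_inj : Function.Injective fun i => hyperplane (l2 i) := by
  intro i k h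
  by_contra hne
  have h1 : (![du i, dw i] : Fin 2 → ℂ) ∈ hyperplane (l2 i) := by
    rw [mem_l2]; simp; ring
  simp only at h
  rw [h, mem_l2] at h1
  simp only [Matrix.cons_val_zero, Matrix.cons_val_one] at h1
  exact det_ne hne (by linear_combination -h1)

theorem l3_inj : Function.Injective fun i => hyperplane (l3 i) := by
  intro i k h
  by_contra hne
  simp only [hyp_l3] at h
  have h1 : (![du i, dw i, 0] : Fin 3 → ℂ) ∈ lp i := by
    rw [mem_lp]; simp; ring
  rw [h, mem_lp] at h1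
  simp only [Matrix.cons_val_zero, Matrix.cons_val_one] at h1
  exact det_ne hne (by linear_combination -h1)

/-- the first `k` of the seven lines -/
noncomputable def lines2 (k : ℕ) : Finset (Submodule ℂ (Fin 2 → ℂ)) := by
  classical
  exact (Finset.univ.filter fun i : Fin 7 => i.val < k).image fun i => hyperplane (l2 i)

/-- the first `k` of the planes through the axis and the first `j` of the other planes -/
noncomputable def planes (k j : ℕ) : Finset (Submodule ℂ (Fin 3 → ℂ)) := by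
  classical
  exact ((Finset.univ.filter fun i : Fin 7 => i.val < k).image fun i => hyperplane (l3 i)) ∪
    ((Finset.univ.filter fun i : Fin 5 => i.val < j).image fun i => hyperplane (m3 i))

theorem mem_lines2 (k : ℕ) (H : Submodule ℂ (Fin 2 → ℂ)) :
    H ∈ lines2 k ↔ ∃ i : Fin 7, i.val < k ∧ hyperplane (l2 i) = H := by
  simp [lines2]

theorem mem_planes (k j : ℕ) (H : Submodule ℂ (Fin 3 → ℂ)) :
    H ∈ planes k j ↔ (∃ i : Fin 7, i.val < k ∧ hyperplane (l3 i) = H) ∨
      ∃ i : Fin 5, i.val < j ∧ hyperplane (m3 i) = H := by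
  simp [planes]

theorem lin_l2 (i : Fin 7) : linearForm (l2 i) = C (dw i) * X 0 - C (du i) * X 1 := by
  rw [l2, linearForm_two]; simp; ring

theorem lin_l3 (i : Fin 7) : linearForm (l3 i) = C (dw i) * X 0 - C (du i) * X 1 := by
  rw [l3, linearForm_three]; simp; ring

theorem lin_m3 (i : Fin 5) : linearForm (m3 i) = X 2 - C (ma i) * X 0 - C (mb i) * X 1 := by
  rw [m3, linearForm_three]; simp; ring

theorem hasExp_lines (k : ℕ) (hk : k < 7) : HasExp (lines2 (k + 1)) (1 ::ₘ k ::ₘ 0) := by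
  have hdvd : ∀ i : Fin k, linearForm (l2 (Fin.castLE hk.le i)) ∣
      ∏ i : Fin k, linearForm (l2 (Fin.castLE hk.le i)) := fun i =>
    Finset.dvd_prod_of_mem _ (Finset.mem_univ i)
  have hhom : (∏ i : Fin k, linearForm (l2 (Fin.castLE hk.le i))).IsHomogeneous k := by
    have := IsHomogeneous.prod Finset.univ (fun i : Fin k => linearForm (l2 (Fin.castLE hk.le i)))
      (fun _ => 1) (fun i _ => linearForm_homog _)
    simpa using this
  have hprod : ∏ i : Fin (k + 1), linearForm (l2 (Fin.castLE hk i)) =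
      (∏ i : Fin k, linearForm (l2 (Fin.castLE hk.le i))) * linearForm (l2 ⟨k, hk⟩) := by
    rw [Fin.prod_univ_castSucc]
    rfl
  set Q := ∏ i : Fin k, linearForm (l2 (Fin.castLE hk.le i)) with hQ
  have h := hasExp_of_det (A := lines2 (k + 1)) (ι := Fin (k + 1))
    (fun i => l2 (Fin.castLE hk i)) (fun i => l2_ne _)
    (fun i i' h => Fin.castLE_injective hk (l2_inj h))
    (by
      intro H
      rw [mem_lines2]
      constructor
      · rintro ⟨i, hi, rfl⟩; exact ⟨⟨i, hi⟩, rfl⟩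
      · rintro ⟨i, rfl⟩; exact ⟨Fin.castLE hk i, i.2, rfl⟩)
    !![X 0, X 1; Q * C (du ⟨k, hk⟩), Q * C (dw ⟨k, hk⟩)]
    (by
      intro r i
      fin_cases r
      · refine dvd_of_eq ?_
        simp [linearForm, Fin.sum_univ_two]
      · rcases i with ⟨i, hi⟩
        rcases Nat.lt_succ_iff_lt_or_eq.1 hi with h1 | h1
        · have h2 := hdvd ⟨i, h1⟩
          refine dvd_trans h2 ⟨C (l2 (Fin.castLE hk ⟨i, hi⟩) 0) * C (du ⟨k, hk⟩) +
            C (l2 (Fin.castLE hk ⟨i, hi⟩) 1) * C (dw ⟨k, hk⟩), ?_⟩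
          simp [Fin.sum_univ_two]; ring
        · subst h1
          refine ⟨0, ?_⟩
          have e : Fin.castLE hk (⟨i, hi⟩ : Fin (i + 1)) = ⟨i, hk⟩ := rfl
          simp only [e, Fin.sum_univ_two, l2]
          simp; ring)
    ![1, k]
    (by
      intro r j
      fin_cases r <;> fin_cases j
      · exact isHomogeneous_X _ _
      · exact isHomogeneous_X _ _
      · simpa using hhom.mul (isHomogeneous_C _ _)
      · simpa using hhom.mul (isHomogeneous_C _ _))
    (by
      rw [hprod, Matrix.det_fin_two_of, lin_l2]; ring)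
  exact h

theorem hasExp_planes_zero (k : ℕ) (hk : k < 7) :
    HasExp (planes (k + 1) 0) (1 ::ₘ k ::ₘ 0 ::ₘ 0) := by
  have hdvd : ∀ i : Fin k, linearForm (l3 (Fin.castLE hk.le i)) ∣
      ∏ i : Fin k, linearForm (l3 (Fin.castLE hk.le i)) := fun i =>
    Finset.dvd_prod_of_mem _ (Finset.mem_univ i)
  have hhom : (∏ i : Fin k, linearForm (l3 (Fin.castLE hk.le i))).IsHomogeneous k := by
    have := IsHomogeneous.prod Finset.univ (fun i : Fin k => linearForm (l3 (Fin.castLE hk.le i)))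
      (fun _ => 1) (fun i _ => linearForm_homog _)
    simpa using this
  have hprod : ∏ i : Fin (k + 1), linearForm (l3 (Fin.castLE hk i)) =
      (∏ i : Fin k, linearForm (l3 (Fin.castLE hk.le i))) * linearForm (l3 ⟨k, hk⟩) := by
    rw [Fin.prod_univ_castSucc]
    rfl
  set Q := ∏ i : Fin k, linearForm (l3 (Fin.castLE hk.le i)) with hQ
  have h := hasExp_of_det (A := planes (k + 1) 0) (ι := Fin (k + 1))
    (fun i => l3 (Fin.castLE hk i)) (fun i => l3_ne _)
    (fun i i' h => Fin.castLE_injective hk (l3_inj h))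
    (by
      intro H
      rw [mem_planes]
      constructor
      · rintro (⟨i, hi, rfl⟩ | ⟨i, hi, rfl⟩)
        · exact ⟨⟨i, hi⟩, rfl⟩
        · omega
      · rintro ⟨i, rfl⟩; exact Or.inl ⟨Fin.castLE hk i, i.2, rfl⟩)
    !![X 0, X 1, 0; Q * C (du ⟨k, hk⟩), Q * C (dw ⟨k, hk⟩), 0; 0, 0, 1]
    (by
      intro r i
      fin_cases r
      · refine dvd_of_eq ?_
        simp [linearForm, Fin.sum_univ_three, l3]
      · rcases i with ⟨i, hi⟩
        rcases Nat.lt_succ_iff_lt_or_eq.1 hi with h1 | h1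
        · have h2 := hdvd ⟨i, h1⟩
          refine dvd_trans h2 ⟨C (l3 (Fin.castLE hk ⟨i, hi⟩) 0) * C (du ⟨k, hk⟩) +
            C (l3 (Fin.castLE hk ⟨i, hi⟩) 1) * C (dw ⟨k, hk⟩), ?_⟩
          simp [Fin.sum_univ_three]; ring
        · subst h1
          refine ⟨0, ?_⟩
          have e : Fin.castLE hk (⟨i, hi⟩ : Fin (i + 1)) = ⟨i, hk⟩ := rfl
          simp only [e, Fin.sum_univ_three, l3]
          simp; ring
      · refine ⟨0, ?_⟩
        simp [Fin.sum_univ_three, l3])
    ![1, k, 0]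
    (by
      intro r j
      fin_cases r <;> fin_cases j
      · exact isHomogeneous_X _ _
      · exact isHomogeneous_X _ _
      · exact isHomogeneous_zero _ _ _
      · simpa using hhom.mul (isHomogeneous_C _ _)
      · simpa using hhom.mul (isHomogeneous_C _ _)
      · exact isHomogeneous_zero _ _ _
      · exact isHomogeneous_zero _ _ _
      · exact isHomogeneous_zero _ _ _
      · exact isHomogeneous_one _ _)
    (by
      rw [hprod, Matrix.det_fin_three, lin_l3]; simp; ring)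
  exact h

/-! ### the planes that do not contain the axis -/

theorem m3_inj : Function.Injective fun i => hyperplane (m3 i) := by
  intro i k h
  simp only [hyp_m3] at h
  have h1 : (![1, 0, ma i] : Fin 3 → ℂ) ∈ mp i := by rw [mem_mp]; simp
  have h2 : (![0, 1, mb i] : Fin 3 → ℂ) ∈ mp i := by rw [mem_mp]; simp
  rw [h, mem_mp] at h1 h2
  simp only [Matrix.cons_val_zero, Matrix.cons_val_one, Matrix.cons_val, mul_one, mul_zero,
    add_zero, zero_add] at h1 h2
  fin_cases i <;> fin_cases k <;> first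
    | rfl
    | (exfalso; simp only [ma, Fin.zero_eta, Fin.mk_one, Matrix.cons_val_zero, Matrix.cons_val_one,
        Matrix.cons_val, Fin.reduceFinMk] at h1; norm_num at h1; done)
    | (exfalso; simp only [mb, Fin.zero_eta, Fin.mk_one, Matrix.cons_val_zero, Matrix.cons_val_one,
        Matrix.cons_val, Fin.reduceFinMk] at h2; norm_num at h2; done)

theorem l3_ne_m3 (i : Fin 7) (j : Fin 5) : hyperplane (l3 i) ≠ hyperplane (m3 j) := by
  intro h
  have h1 : (![0, 0, 1] : Fin 3 → ℂ) ∈ hyperplane (l3 i) := by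
    rw [hyp_l3, mem_lp]; simp
  rw [h, hyp_m3, mem_mp] at h1
  simp at h1

theorem ma_vals : ma 0 = 0 ∧ ma 1 = 1 ∧ ma 2 = -1 ∧ ma 3 = 0 ∧ ma 4 = 0 :=
  ⟨rfl, rfl, rfl, rfl, rfl⟩
theorem mb_vals : mb 0 = 0 ∧ mb 1 = 0 ∧ mb 2 = 0 ∧ mb 3 = 1 ∧ mb 4 = -1 :=
  ⟨rfl, rfl, rfl, rfl, rfl⟩
theorem du_vals : du 0 = 0 ∧ du 1 = 1 ∧ du 2 = 1 ∧ du 3 = 1 ∧ du 4 = 2 ∧ du 5 = 2 ∧ du 6 = 1 :=
  ⟨rfl, rfl, rfl, rfl, rfl, rfl, rfl⟩
theorem dw_vals : dw 0 = 1 ∧ dw 1 = 0 ∧ dw 2 = 1 ∧ dw 3 = -1 ∧ dw 4 = 1 ∧ dw 5 = -1 ∧ dw 6 = 2 :=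
  ⟨rfl, rfl, rfl, rfl, rfl, rfl, rfl⟩

/-- the product of the first six forms -/
noncomputable def Q6 : MvPolynomial (Fin 3) ℂ := ∏ i : Fin 6, linearForm (l3 (Fin.castLE (by omega) i))

theorem Q6_eq : Q6 = -(X 0 * X 1 * (X 0 ^ 2 - X 1 ^ 2) * (X 0 ^ 2 - C 4 * X 1 ^ 2)) := by
  obtain ⟨a0, a1, a2, a3, a4, a5, a6⟩ := du_vals
  obtain ⟨b0, b1, b2, b3, b4, b5, b6⟩ := dw_vals
  have e : Q6 = linearForm (l3 0) * linearForm (l3 1) * linearForm (l3 2) * linearForm (l3 3) *
      linearForm (l3 4) * linearForm (l3 5) := by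
    rw [Q6, Fin.prod_univ_six]; rfl
  rw [e]
  simp only [lin_l3, a0, a1, a2, a3, a4, a5, b0, b1, b2, b3, b4, b5, map_zero, map_one, map_neg]
  have h4 : (C 4 : MvPolynomial (Fin 3) ℂ) = C 2 * C 2 := by rw [← map_mul]; norm_num
  rw [h4]
  ring

/-- the third coordinate of the derivation of degree six -/
noncomputable def G6 : MvPolynomial (Fin 3) ℂ :=
  X 2 * (X 0 ^ 2 - C 4 * X 1 ^ 2) * ((C 2 * X 0 - X 1) * X 2 ^ 2 + X 1 ^ 3 - C 2 * X 0 ^ 3)

theorem Q6_hom : Q6.IsHomogeneous 6 := by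
  have := IsHomogeneous.prod Finset.univ
    (fun i : Fin 6 => linearForm (l3 (Fin.castLE (by omega) i)))
    (fun _ => 1) (fun i _ => linearForm_homog _)
  simpa [Q6] using this

theorem G6_hom : G6.IsHomogeneous 6 := by
  have hX : ∀ i : Fin 3, (X i : MvPolynomial (Fin 3) ℂ).IsHomogeneous 1 := fun i =>
    isHomogeneous_X _ i
  have hC : ∀ (c : ℂ) {p : MvPolynomial (Fin 3) ℂ} {d : ℕ}, p.IsHomogeneous d →
      (C c * p).IsHomogeneous d := fun c p d h => by
    simpa using (isHomogeneous_C (Fin 3) c).mul h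
  have h1 : (X 0 ^ 2 - C 4 * X 1 ^ 2 : MvPolynomial (Fin 3) ℂ).IsHomogeneous 2 :=
    ((hX 0).pow 2).sub (hC 4 ((hX 1).pow 2))
  have h2 : ((C 2 * X 0 - X 1) * X 2 ^ 2 + X 1 ^ 3 - C 2 * X 0 ^ 3 :
      MvPolynomial (Fin 3) ℂ).IsHomogeneous 3 :=
    ((((hC 2 (hX 0)).sub (hX 1)).mul ((hX 2).pow 2)).add ((hX 1).pow 3)).sub
      (hC 2 ((hX 0).pow 3))
  exact ((hX 2).mul h1).mul h2

end Pool.Agent.Q38.IndFree
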