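import Pool.Agent.Q39.POG.Defs

set_option autoImplicit false

/-!
# Inductively free and recursively free arrangements
-/

namespace Pool.Agent.Q38.IndFree

open MvPolynomial Pool.Agent.Q39.POG

variable {n : ℕ}

/-- A linear hyperplane of `ℂ^n`: the kernel of a nonzero linear form. -/
def IsHyperplane (H : Submodule ℂ (Fin n → ℂ)) : Prop :=
  ∃ α : (Fin n → ℂ) →ₗ[ℂ] ℂ, α ≠ 0 ∧ H = LinearMap.ker α

/-- The intersection lattice `L(A)`: all intersections of subfamilies of `A`. -/
def flats (A : Finset (Submodule ℂ (Fin n → ℂ))) : Set (Submodule ℂ (Fin n → ℂ)) :=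
  {X | ∃ B : Finset (Submodule ℂ (Fin n → ℂ)), B ⊆ A ∧
    X = sInf (B : Set (Submodule ℂ (Fin n → ℂ)))}

/-- The rank of a flat: its codimension. -/
noncomputable def rk (X : Submodule ℂ (Fin n → ℂ)) : ℕ := n - Module.finrank ℂ X

/-- The ideal `I(X)` of a linear subspace `X ⊆ ℂ^n`: all polynomials vanishing on `X`. -/
def idealOf (X : Submodule ℂ (Fin n → ℂ)) : Ideal (MvPolynomial (Fin n) ℂ) where
  carrier := {f | ∀ v ∈ X, eval v f = 0}
  add_mem' := by
    intro f g hf hg v hv
    rw [map_add, hf v hv, hg v hv, add_zero]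
  zero_mem' := by
    intro v _
    exact map_zero _
  smul_mem' := by
    intro c f hf v hv
    rw [smul_eq_mul, map_mul, hf v hv, mul_zero]

/-- The codimension-two flats. -/
def codimTwo (A : Finset (Submodule ℂ (Fin n → ℂ))) : Set (Submodule ℂ (Fin n → ℂ)) :=
  {X | X ∈ flats A ∧ rk X = 2}

/-- The ideal `J(A)` of the singular locus: the intersection of the ideals of the codimension-two
flats. -/
noncomputable def singIdeal (A : Finset (Submodule ℂ (Fin n → ℂ))) :
    Ideal (MvPolynomial (Fin n) ℂ) := ⨅ X ∈ codimTwo A, idealOf X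

/-- The symbolic power `J(A)^(m)`. -/
noncomputable def symbPow (A : Finset (Submodule ℂ (Fin n → ℂ))) (m : ℕ) :
    Ideal (MvPolynomial (Fin n) ℂ) := ⨅ X ∈ codimTwo A, idealOf X ^ m

/-- The module `D(A)` of logarithmic derivations of a finite set `A` of hyperplanes of `ℂ^n`:
`θ = (θ_1, ..., θ_n)` stands for the derivation `∑ θ_i ∂/∂x_i`, and `θ(α) ∈ (α)` is required for
each nonzero linear form `α` whose kernel is in `A`. -/
noncomputable def derivs (A : Finset (Submodule ℂ (Fin n → ℂ))) :
    Submodule (MvPolynomial (Fin n) ℂ) (Fin n → MvPolynomial (Fin n) ℂ) where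
  carrier := {θ | ∀ a : Fin n → ℂ, a ≠ 0 → hyperplane a ∈ A →
    linearForm a ∣ ∑ i, C (a i) * θ i}
  add_mem' := fun {θ η} hθ hη a ha hA => by
    have : ∑ i, C (a i) * (θ + η) i = (∑ i, C (a i) * θ i) + ∑ i, C (a i) * η i := by
      rw [← Finset.sum_add_distrib]
      exact Finset.sum_congr rfl fun i _ => by rw [Pi.add_apply, mul_add]
    rw [this]
    exact dvd_add (hθ a ha hA) (hη a ha hA)
  zero_mem' := fun a _ _ => by simp
  smul_mem' := fun r θ hθ a ha hA => by
    have : ∑ i, C (a i) * (r • θ) i = r * ∑ i, C (a i) * θ i := by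
      rw [Finset.mul_sum]
      exact Finset.sum_congr rfl fun i _ => by rw [Pi.smul_apply, smul_eq_mul]; ring
    rw [this]
    exact dvd_mul_of_dvd_right (hθ a ha hA) r

/-- `D(A)` is a free module and `m` is the multiset of the polynomial degrees of a homogeneous
basis: `exp A = m`. -/
def HasExp (A : Finset (Submodule ℂ (Fin n → ℂ))) (m : Multiset ℕ) : Prop :=
  ∃ (e : Fin n → ℕ) (b : Module.Basis (Fin n) (MvPolynomial (Fin n) ℂ) (derivs A)),
    (∀ i j, ((b i : Fin n → MvPolynomial (Fin n) ℂ) j).IsHomogeneous (e i)) ∧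
    m = Finset.univ.val.map e

open Classical in
/-- The restriction `A''` of `A` to `H ∈ A`: all `H ∩ K` with `K ∈ A`, `K ≠ H`, as an arrangement in
`ℂ^m`, for linear coordinates `e` on `H`. -/
noncomputable def restr {m : ℕ} (A : Finset (Submodule ℂ (Fin n → ℂ)))
    (H : Submodule ℂ (Fin n → ℂ)) (e : (Fin m → ℂ) ≃ₗ[ℂ] H) :
    Finset (Submodule ℂ (Fin m → ℂ)) :=
  (A.erase H).image fun K => K.comap (H.subtype ∘ₗ e.toLinearMap)

open Classical in
/-- The class of inductively free arrangements: the smallest class that contains the empty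
arrangement in each `ℂ^n` and contains `A` if for some `H ∈ A` both `A' = A \ {H}` and `A''` are in
the class and `exp A'' ⊆ exp A'` (as multisets). -/
inductive InductivelyFree : (n : ℕ) → Finset (Submodule ℂ (Fin n → ℂ)) → Prop
  | empty (n : ℕ) : InductivelyFree n ∅
  | add (n : ℕ) (A : Finset (Submodule ℂ (Fin (n + 1) → ℂ)))
      (hA : ∀ K ∈ A, IsHyperplane K)
      (H : Submodule ℂ (Fin (n + 1) → ℂ)) (hH : H ∈ A) (e : (Fin n → ℂ) ≃ₗ[ℂ] H)
      (h' : InductivelyFree (n + 1) (A.erase H)) (h'' : InductivelyFree n (restr A H e))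
      (m' m'' : Multiset ℕ) (hm' : HasExp (A.erase H) m') (hm'' : HasExp (restr A H e) m'')
      (hle : m'' ≤ m') : InductivelyFree (n + 1) A

open Classical in
/-- The class RF of recursively free arrangements: the smallest class that contains the empty
arrangement in each `ℂ^n` and such that, for `H ∈ A`, `A' = A \ {H}` and the restriction `A''`:
if `A'` and `A''` are in RF and `exp A'' ⊆ exp A'`, then `A` is in RF; if `A` and `A''` are in RF and
`exp A'' ⊆ exp A`, then `A'` is in RF. -/
inductive RecursivelyFree : (n : ℕ) → Finset (Submodule ℂ (Fin n → ℂ)) → Prop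
  | empty (n : ℕ) : RecursivelyFree n ∅
  | add (n : ℕ) (A : Finset (Submodule ℂ (Fin (n + 1) → ℂ)))
      (hA : ∀ K ∈ A, IsHyperplane K)
      (H : Submodule ℂ (Fin (n + 1) → ℂ)) (hH : H ∈ A) (e : (Fin n → ℂ) ≃ₗ[ℂ] H)
      (h' : RecursivelyFree (n + 1) (A.erase H)) (h'' : RecursivelyFree n (restr A H e))
      (m' m'' : Multiset ℕ) (hm' : HasExp (A.erase H) m') (hm'' : HasExp (restr A H e) m'')
      (hle : m'' ≤ m') : RecursivelyFree (n + 1) A
  | del (n : ℕ) (A : Finset (Submodule ℂ (Fin (n + 1) → ℂ)))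
      (hA : ∀ K ∈ A, IsHyperplane K)
      (H : Submodule ℂ (Fin (n + 1) → ℂ)) (hH : H ∈ A) (e : (Fin n → ℂ) ≃ₗ[ℂ] H)
      (h : RecursivelyFree (n + 1) A) (h'' : RecursivelyFree n (restr A H e))
      (m m'' : Multiset ℕ) (hm : HasExp A m) (hm'' : HasExp (restr A H e) m'')
      (hle : m'' ≤ m) : RecursivelyFree (n + 1) (A.erase H)

theorem InductivelyFree.recursivelyFree {n : ℕ} {A : Finset (Submodule ℂ (Fin n → ℂ))}
    (h : InductivelyFree n A) : RecursivelyFree n A := by
  induction h with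
  | empty n => exact .empty n
  | add n A hA H hH e h' h'' m' m'' hm' hm'' hle ih' ih'' =>
    exact .add n A hA H hH e ih' ih'' m' m'' hm' hm'' hle

end Pool.Agent.Q38.IndFree
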