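import Pool.Agent.Q38.IF.Chain

set_option autoImplicit false

/-!
# The arrangement of twelve planes is inductively free: end of the proof
-/

namespace Pool.Agent.Q38.IndFree

open MvPolynomial Pool.Agent.Q39.POG
open Pool.Agent.Results.MP_8050b7_ag.ContainmentFails (du dw ma mb lp mp mem_lp mem_mp
  Arr mem_Arr finrank_lp finrank_mp lp_vec_ne mp_vec_ne Arr_hyp)

theorem Q7_eq : Q6 * linearForm (l3 6) = ∏ i : Fin 7, linearForm (l3 i) := by
  rw [Fin.prod_univ_castSucc, Q6]
  rfl

theorem l3_dvd_Q6 (i : Fin 7) (hi : i.val < 6) : linearForm (l3 i) ∣ Q6 := by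
  have := Finset.dvd_prod_of_mem (fun i : Fin 6 => linearForm (l3 (Fin.castLE (by omega) i)))
    (Finset.mem_univ ⟨i.val, hi⟩)
  exact this

theorem third (i : Fin 5) : linearForm (m3 i) ∣
    -C (ma i) * Q6 - C (mb i) * (C 2 * Q6) + G6 := by
  obtain ⟨a0, a1, a2, a3, a4⟩ := ma_vals
  obtain ⟨b0, b1, b2, b3, b4⟩ := mb_vals
  rw [lin_m3, Q6_eq, G6]
  fin_cases i
  · refine ⟨(X 0 ^ 2 - C 4 * X 1 ^ 2) * ((C 2 * X 0 - X 1) * X 2 ^ 2 + X 1 ^ 3 - C 2 * X 0 ^ 3), ?_⟩
    simp only [Fin.zero_eta, Fin.mk_one, Fin.reduceFinMk, a0, b0, map_zero]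
    ring
  · refine ⟨(X 0 ^ 2 - C 4 * X 1 ^ 2) * ((C 2 * X 0 - X 1) * X 2 ^ 2 +
      (C 2 * X 0 - X 1) * X 0 * X 2 + (X 1 ^ 3 - X 0 ^ 2 * X 1)), ?_⟩
    simp only [Fin.zero_eta, Fin.mk_one, Fin.reduceFinMk, a1, b1, map_zero, map_one]
    ring
  · refine ⟨(X 0 ^ 2 - C 4 * X 1 ^ 2) * ((C 2 * X 0 - X 1) * X 2 ^ 2 -
      (C 2 * X 0 - X 1) * X 0 * X 2 + (X 1 ^ 3 - X 0 ^ 2 * X 1)), ?_⟩
    simp only [Fin.zero_eta, Fin.mk_one, Fin.reduceFinMk, a2, b2, map_zero, map_one, map_neg]
    ring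
  · refine ⟨(X 0 ^ 2 - C 4 * X 1 ^ 2) * ((C 2 * X 0 - X 1) * X 2 ^ 2 +
      (C 2 * X 0 - X 1) * X 1 * X 2 + C 2 * (X 0 * X 1 ^ 2 - X 0 ^ 3)), ?_⟩
    simp only [Fin.zero_eta, Fin.mk_one, Fin.reduceFinMk, a3, b3, map_zero, map_one]
    have h4 : (C 4 : MvPolynomial (Fin 3) ℂ) = C 2 * C 2 := by rw [← map_mul]; norm_num
    have h2 : (C 2 : MvPolynomial (Fin 3) ℂ) = 2 := map_ofNat _ _
    rw [h4, h2]
    ring
  · refine ⟨(X 0 ^ 2 - C 4 * X 1 ^ 2) * ((C 2 * X 0 - X 1) * X 2 ^ 2 -
      (C 2 * X 0 - X 1) * X 1 * X 2 + C 2 * (X 0 * X 1 ^ 2 - X 0 ^ 3)), ?_⟩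
    simp only [Fin.zero_eta, Fin.mk_one, Fin.reduceFinMk, a4, b4, map_zero, map_one, map_neg]
    have h4 : (C 4 : MvPolynomial (Fin 3) ℂ) = C 2 * C 2 := by rw [← map_mul]; norm_num
    have h2 : (C 2 : MvPolynomial (Fin 3) ℂ) = 2 := map_ofNat _ _
    rw [h4, h2]
    ring

theorem hasExp_full (j : ℕ) (hj : j ≤ 5) : HasExp (planes 7 j) (1 ::ₘ 6 ::ₘ j ::ₘ 0) := by
  have hhom : (∏ i : Fin j, linearForm (m3 (Fin.castLE hj i))).IsHomogeneous j := by
    have := IsHomogeneous.prod Finset.univ (fun i : Fin j => linearForm (m3 (Fin.castLE hj i)))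
      (fun _ => 1) (fun i _ => linearForm_homog _)
    simpa using this
  have hdvd : ∀ i : Fin j, linearForm (m3 (Fin.castLE hj i)) ∣
      ∏ i : Fin j, linearForm (m3 (Fin.castLE hj i)) := fun i =>
    Finset.dvd_prod_of_mem _ (Finset.mem_univ i)
  set R := ∏ i : Fin j, linearForm (m3 (Fin.castLE hj i)) with hR
  have h := hasExp_of_det (A := planes 7 j) (ι := Fin 7 ⊕ Fin j)
    (Sum.elim l3 fun i => m3 (Fin.castLE hj i))
    (by rintro (i | i); exacts [l3_ne _, m3_ne _])
    (by
      rintro (i | i) (k | k) h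
      · exact congrArg Sum.inl (l3_inj h)
      · exact absurd h (l3_ne_m3 _ _)
      · exact absurd h.symm (l3_ne_m3 _ _)
      · exact congrArg Sum.inr (Fin.castLE_injective hj (m3_inj h)))
    (by
      intro H
      rw [mem_planes]
      constructor
      · rintro (⟨i, hi, rfl⟩ | ⟨i, hi, rfl⟩)
        · exact ⟨Sum.inl i, rfl⟩
        · exact ⟨Sum.inr ⟨i, hi⟩, rfl⟩
      · rintro ⟨i | i, rfl⟩
        · exact Or.inl ⟨i, i.2, rfl⟩
        · exact Or.inr ⟨Fin.castLE hj i, i.2, rfl⟩)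
    !![X 0, X 1, X 2; Q6, C 2 * Q6, G6; 0, 0, R]
    (by
      intro r i
      fin_cases r
      · refine dvd_of_eq ?_
        rcases i with i | i <;> simp [linearForm, Fin.sum_univ_three]
      · rcases i with i | i
        · rcases Nat.lt_or_ge i.val 6 with h1 | h1
          · refine dvd_trans (l3_dvd_Q6 i h1) ⟨C (l3 i 0) + C (l3 i 1) * C 2, ?_⟩
            simp [Fin.sum_univ_three, l3]; ring
          · have h2 : i = 6 := by apply Fin.ext; have := i.2; omega
            subst h2
            refine ⟨0, ?_⟩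
            obtain ⟨-, -, -, -, -, -, a6⟩ := du_vals
            obtain ⟨-, -, -, -, -, -, b6⟩ := dw_vals
            simp [Fin.sum_univ_three, l3, a6, b6]
        · have h1 := third (Fin.castLE hj i)
          refine dvd_trans h1 (dvd_of_eq ?_)
          simp [Fin.sum_univ_three, m3]; ring
      · rcases i with i | i
        · refine ⟨0, ?_⟩
          simp [Fin.sum_univ_three, l3]
        · refine dvd_trans (hdvd i) (dvd_of_eq ?_)
          simp [Fin.sum_univ_three, m3])
    ![1, 6, j]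
    (by
      intro r k
      fin_cases r <;> fin_cases k
      · exact isHomogeneous_X _ _
      · exact isHomogeneous_X _ _
      · exact isHomogeneous_X _ _
      · exact Q6_hom
      · simpa using (isHomogeneous_C (Fin 3) (2 : ℂ)).mul Q6_hom
      · exact G6_hom
      · exact isHomogeneous_zero _ _ _
      · exact isHomogeneous_zero _ _ _
      · exact hhom)
    (by
      rw [Fintype.prod_sum_type]
      simp only [Sum.elim_inl, Sum.elim_inr]
      rw [← Q7_eq, ← hR, Matrix.det_fin_three, lin_l3]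
      obtain ⟨-, -, -, -, -, -, a6⟩ := du_vals
      obtain ⟨-, -, -, -, -, -, b6⟩ := dw_vals
      rw [a6, b6]
      simp; ring)
  exact h

/-! ### the chains -/

theorem lines2_zero : lines2 0 = ∅ := by
  ext H; rw [mem_lines2]; simp

theorem planes_zero : planes 0 0 = ∅ := by
  ext H; rw [mem_planes]; simp

open Classical in
theorem lines2_erase (k : ℕ) (hk : k < 7) :
    (lines2 (k + 1)).erase (hyperplane (l2 ⟨k, hk⟩)) = lines2 k := by
  ext H
  rw [Finset.mem_erase, mem_lines2, mem_lines2]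
  constructor
  · rintro ⟨hne, i, hi, rfl⟩
    refine ⟨i, ?_, rfl⟩
    rcases Nat.lt_succ_iff_lt_or_eq.1 hi with h | h
    · exact h
    · exact absurd (congrArg (fun i => hyperplane (l2 i)) (Fin.ext h : i = ⟨k, hk⟩)) hne
  · rintro ⟨i, hi, rfl⟩
    refine ⟨fun h => ?_, i, by omega, rfl⟩
    have := congrArg Fin.val (l2_inj h)
    simp only at this
    omega

open Classical in
theorem planes_erase_l (k : ℕ) (hk : k < 7) :
    (planes (k + 1) 0).erase (hyperplane (l3 ⟨k, hk⟩)) = planes k 0 := by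
  ext H
  rw [Finset.mem_erase, mem_planes, mem_planes]
  simp only [Nat.not_lt_zero, false_and, exists_false, or_false]
  constructor
  · rintro ⟨hne, i, hi, rfl⟩
    refine ⟨i, ?_, rfl⟩
    rcases Nat.lt_succ_iff_lt_or_eq.1 hi with h | h
    · exact h
    · exact absurd (congrArg (fun i => hyperplane (l3 i)) (Fin.ext h : i = ⟨k, hk⟩)) hne
  · rintro ⟨i, hi, rfl⟩
    refine ⟨fun h => ?_, i, by omega, rfl⟩
    have := congrArg Fin.val (l3_inj h)
    simp only at this
    omega

open Classical in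
theorem planes_erase_m (j : ℕ) (hj : j < 5) :
    (planes 7 (j + 1)).erase (hyperplane (m3 ⟨j, hj⟩)) = planes 7 j := by
  ext H
  rw [Finset.mem_erase, mem_planes, mem_planes]
  constructor
  · rintro ⟨hne, ⟨i, hi, rfl⟩ | ⟨i, hi, rfl⟩⟩
    · exact Or.inl ⟨i, hi, rfl⟩
    · refine Or.inr ⟨i, ?_, rfl⟩
      rcases Nat.lt_succ_iff_lt_or_eq.1 hi with h | h
      · exact h
      · exact absurd (congrArg (fun i => hyperplane (m3 i)) (Fin.ext h : i = ⟨j, hj⟩)) hne
  · rintro (⟨i, hi, rfl⟩ | ⟨i, hi, rfl⟩)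
    · exact ⟨l3_ne_m3 _ _, Or.inl ⟨i, hi, rfl⟩⟩
    · refine ⟨fun h => ?_, Or.inr ⟨i, by omega, rfl⟩⟩
      have := congrArg Fin.val (m3_inj h)
      simp only at this
      omega

theorem indFree_lines : ∀ k : ℕ, k ≤ 7 → InductivelyFree 2 (lines2 k) := by
  classical
  intro k
  induction k with
  | zero => intro _; rw [lines2_zero]; exact .empty _
  | succ k ih =>
    intro hk
    obtain ⟨e⟩ := exists_coord (l2_ne ⟨k, hk⟩)
    have hA : ∀ K ∈ lines2 (k + 1), IsHyperplane K := by
      intro K hK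
      obtain ⟨i, -, rfl⟩ := (mem_lines2 _ _).1 hK
      exact isHyperplane_hyperplane (l2_ne i)
    have hmem : hyperplane (l2 ⟨k, hk⟩) ∈ lines2 (k + 1) :=
      (mem_lines2 _ _).2 ⟨⟨k, hk⟩, Nat.lt_succ_self k, rfl⟩
    rcases Nat.eq_zero_or_pos k with h0 | h0
    · subst h0
      have hr : restr (lines2 (0 + 1)) (hyperplane (l2 ⟨0, hk⟩)) e = ∅ := by
        rw [restr, lines2_erase 0 hk, lines2_zero]; rfl
      refine .add 1 _ hA _ hmem e ?_ ?_ (Multiset.replicate 2 0) (Multiset.replicate 1 0) ?_ ?_ ?_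
      · rw [lines2_erase 0 hk]; exact ih (by omega)
      · rw [hr]; exact .empty _
      · rw [lines2_erase 0 hk, lines2_zero]; exact hasExp_empty _
      · rw [hr]; exact hasExp_empty _
      · exact Multiset.replicate_le_replicate _ |>.2 (by omega)
    · obtain ⟨k, rfl⟩ : ∃ m, k = m + 1 := ⟨k - 1, by omega⟩
      have hr : restr (lines2 (k + 1 + 1)) (hyperplane (l2 ⟨k + 1, hk⟩)) e = {⊥} := by
        rw [restr, lines2_erase (k + 1) hk]
        ext L
        rw [Finset.mem_image, Finset.mem_singleton]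
        have key : ∀ i : Fin 7, i.val < k + 1 → (hyperplane (l2 i)).comap
            ((hyperplane (l2 ⟨k + 1, hk⟩)).subtype ∘ₗ e.toLinearMap) = ⊥ := by
          intro i hi
          rw [eq_bot_iff]
          intro x hx
          rw [Submodule.mem_comap, mem_l2] at hx
          have hx2 := (e x).2
          rw [mem_l2] at hx2
          simp only [LinearMap.coe_comp, Submodule.coe_subtype, LinearEquiv.coe_coe,
            Function.comp_apply] at hx
          have hne : i ≠ ⟨k + 1, hk⟩ := by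
            intro h; have := congrArg Fin.val h; simp only at this; omega
          have hd := det_ne hne
          have h0 : ((e x : hyperplane (l2 ⟨k + 1, hk⟩)) : Fin 2 → ℂ) = 0 := by
            funext j
            fin_cases j
            · apply (mul_eq_zero.1 (?_ : (dw i * du ⟨k + 1, hk⟩ - dw ⟨k + 1, hk⟩ * du i) *
                ((e x : hyperplane (l2 ⟨k + 1, hk⟩)) : Fin 2 → ℂ) 0 = 0)).resolve_left hd
              linear_combination du ⟨k + 1, hk⟩ * hx - du i * hx2
            · apply (mul_eq_zero.1 (?_ : (dw i * du ⟨k + 1, hk⟩ - dw ⟨k + 1, hk⟩ * du i) *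
                ((e x : hyperplane (l2 ⟨k + 1, hk⟩)) : Fin 2 → ℂ) 1 = 0)).resolve_left hd
              linear_combination dw ⟨k + 1, hk⟩ * hx - dw i * hx2
          rw [Submodule.mem_bot]
          apply e.injective
          rw [map_zero]
          exact Subtype.ext h0
        constructor
        · rintro ⟨K, hK, rfl⟩
          obtain ⟨i, hi, rfl⟩ := (mem_lines2 _ _).1 hK
          exact key i hi
        · rintro rfl
          exact ⟨_, (mem_lines2 _ _).2 ⟨0, by simp, rfl⟩, key 0 (by simp)⟩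
      have hbot : (⊥ : Submodule ℂ (Fin 1 → ℂ)) = hyperplane ![1] := by
        ext v
        rw [mem_hyp, Submodule.mem_bot]
        simp only [Fin.sum_univ_one, Matrix.cons_val_fin_one, one_mul]
        constructor
        · rintro rfl; rfl
        · intro h; funext i; fin_cases i; exact h
      refine .add 1 _ hA _ hmem e ?_ ?_ (1 ::ₘ k ::ₘ 0) {1} ?_ ?_ ?_
      · rw [lines2_erase (k + 1) hk]; exact ih (by omega)
      · rw [hr, hbot]
        exact indFree_singleton fun h => by simpa using congrFun h 0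
      · rw [lines2_erase (k + 1) hk]; exact hasExp_lines k (by omega)
      · rw [hr]; exact hasExp_one
      · exact Multiset.singleton_le.2 (Multiset.mem_cons_self _ _)

theorem planes_zero_hyp {k j : ℕ} : ∀ K ∈ planes k j, IsHyperplane K := by
  intro K hK
  rcases (mem_planes _ _ _).1 hK with ⟨i, -, rfl⟩ | ⟨i, -, rfl⟩
  · exact isHyperplane_hyperplane (l3_ne i)
  · exact isHyperplane_hyperplane (m3_ne i)

theorem indFree_planes_zero : ∀ k : ℕ, k ≤ 7 → InductivelyFree 3 (planes k 0) := by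
  classical
  intro k
  induction k with
  | zero => intro _; rw [planes_zero]; exact .empty _
  | succ k ih =>
    intro hk
    obtain ⟨e⟩ := exists_coord (l3_ne ⟨k, hk⟩)
    have hmem : hyperplane (l3 ⟨k, hk⟩) ∈ planes (k + 1) 0 :=
      (mem_planes _ _ _).2 (Or.inl ⟨⟨k, hk⟩, Nat.lt_succ_self k, rfl⟩)
    rcases Nat.eq_zero_or_pos k with h0 | h0
    · subst h0
      have hr : restr (planes (0 + 1) 0) (hyperplane (l3 ⟨0, hk⟩)) e = ∅ := by
        rw [restr, planes_erase_l 0 hk, planes_zero]; rfl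
      refine .add 2 _ planes_zero_hyp _ hmem e ?_ ?_ (Multiset.replicate 3 0)
        (Multiset.replicate 2 0) ?_ ?_ ?_
      · rw [planes_erase_l 0 hk]; exact ih (by omega)
      · rw [hr]; exact .empty _
      · rw [planes_erase_l 0 hk, planes_zero]; exact hasExp_empty _
      · rw [hr]; exact hasExp_empty _
      · exact Multiset.replicate_le_replicate _ |>.2 (by omega)
    · obtain ⟨k, rfl⟩ : ∃ m, k = m + 1 := ⟨k - 1, by omega⟩
      -- the common restriction
      have key : ∀ i : Fin 7, i.val < k + 1 → ∀ x : Fin 2 → ℂ,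
          x ∈ (hyperplane (l3 i)).comap
            ((hyperplane (l3 ⟨k + 1, hk⟩)).subtype ∘ₗ e.toLinearMap) ↔
          ((e x : hyperplane (l3 ⟨k + 1, hk⟩)) : Fin 3 → ℂ) 0 = 0 ∧
            ((e x : hyperplane (l3 ⟨k + 1, hk⟩)) : Fin 3 → ℂ) 1 = 0 := by
        intro i hi x
        rw [Submodule.mem_comap, hyp_l3 i, mem_lp]
        simp only [LinearMap.coe_comp, Submodule.coe_subtype, LinearEquiv.coe_coe,
            Function.comp_apply]
        have hx2 : dw ⟨k + 1, hk⟩ * ((e x : hyperplane (l3 ⟨k + 1, hk⟩)) : Fin 3 → ℂ) 0 =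
            du ⟨k + 1, hk⟩ * ((e x : hyperplane (l3 ⟨k + 1, hk⟩)) : Fin 3 → ℂ) 1 :=
          (mem_lp _ _).1 (by rw [← hyp_l3]; exact (e x).2)
        have hne : i ≠ ⟨k + 1, hk⟩ := by
          intro h; have := congrArg Fin.val h; simp only at this; omega
        have hd := det_ne hne
        constructor
        · intro hx
          constructor
          · apply (mul_eq_zero.1 (?_ : (dw i * du ⟨k + 1, hk⟩ - dw ⟨k + 1, hk⟩ * du i) *
                ((e x : hyperplane (l3 ⟨k + 1, hk⟩)) : Fin 3 → ℂ) 0 = 0)).resolve_left hd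
            linear_combination du ⟨k + 1, hk⟩ * hx - du i * hx2
          · apply (mul_eq_zero.1 (?_ : (dw i * du ⟨k + 1, hk⟩ - dw ⟨k + 1, hk⟩ * du i) *
                ((e x : hyperplane (l3 ⟨k + 1, hk⟩)) : Fin 3 → ℂ) 1 = 0)).resolve_left hd
            linear_combination dw ⟨k + 1, hk⟩ * hx - dw i * hx2
        · rintro ⟨h1, h2⟩
          rw [h1, h2, mul_zero, mul_zero]
      obtain ⟨b, hb⟩ : ∃ b : Fin 2 → ℂ, (hyperplane (l3 0)).comap
            ((hyperplane (l3 ⟨k + 1, hk⟩)).subtype ∘ₗ e.toLinearMap) = hyperplane b :=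
        ⟨_, comap_hyperplane _ _⟩
      have hb0 : b ≠ 0 := by
        rintro rfl
        rw [hyperplane_zero] at hb
        -- the direction vector of the plane
        have hv : (![du ⟨k + 1, hk⟩, dw ⟨k + 1, hk⟩, 0] : Fin 3 → ℂ) ∈
            hyperplane (l3 ⟨k + 1, hk⟩) := by
          rw [hyp_l3, mem_lp]; simp; ring
        have h1 : e.symm ⟨_, hv⟩ ∈ (⊤ : Submodule ℂ (Fin 2 → ℂ)) := trivial
        rw [← hb, key 0 (by simp)] at h1
        simp only [LinearEquiv.apply_symm_apply, Matrix.cons_val_zero, Matrix.cons_val_one] at h1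
        have hne : (0 : Fin 7) ≠ ⟨k + 1, hk⟩ := by
          intro h; have := congrArg Fin.val h; simp at this
        apply det_ne hne
        rw [h1.1, h1.2]; ring
      have hr : restr (planes (k + 1 + 1) 0) (hyperplane (l3 ⟨k + 1, hk⟩)) e =
          {hyperplane b} := by
        rw [restr, planes_erase_l (k + 1) hk]
        ext L
        rw [Finset.mem_image, Finset.mem_singleton, ← hb]
        constructor
        · rintro ⟨K, hK, rfl⟩
          rcases (mem_planes _ _ _).1 hK with ⟨i, hi, rfl⟩ | ⟨i, hi, -⟩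
          · ext x; rw [key i hi, key 0 (by simp)]
          · omega
        · rintro rfl
          exact ⟨_, (mem_planes _ _ _).2 (Or.inl ⟨0, by simp, rfl⟩), rfl⟩
      refine .add 2 _ planes_zero_hyp _ hmem e ?_ ?_ (1 ::ₘ k ::ₘ 0 ::ₘ 0) (1 ::ₘ 0 ::ₘ 0) ?_ ?_ ?_
      · rw [planes_erase_l (k + 1) hk]; exact ih (by omega)
      · rw [hr]
        exact indFree_singleton hb0
      · rw [planes_erase_l (k + 1) hk]; exact hasExp_planes_zero k (by omega)
      · rw [hr]
        have : b = ![b 0, b 1] := by funext i; fin_cases i <;> rfl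
        rw [this]
        exact hasExp_single (by rw [← this]; exact hb0)
      · exact (Multiset.cons_le_cons_iff 1).2 (Multiset.le_cons_self _ _)

end Pool.Agent.Q38.IndFree
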