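import Pool.Agent.Q38.IF.Full

set_option autoImplicit false

/-!
# The arrangement of twelve planes is inductively free: conclusion
-/

namespace Pool.Agent.Q38.IndFree

open MvPolynomial Pool.Agent.Q39.POG
open Pool.Agent.Results.MP_8050b7_ag.ContainmentFails (du dw ma mb lp mp mem_lp mem_mp
  Arr mem_Arr finrank_lp finrank_mp lp_vec_ne mp_vec_ne Arr_hyp F_not_mem
  F_mem_symb)

/-- the coordinates `x, y` on the plane `z = a x + b y` -/
noncomputable def coord (j : Fin 5) : (Fin 2 → ℂ) ≃ₗ[ℂ] hyperplane (m3 j) where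
  toFun x := ⟨![x 0, x 1, ma j * x 0 + mb j * x 1], by rw [hyp_m3, mem_mp]; simp⟩
  invFun v := ![(v : Fin 3 → ℂ) 0, (v : Fin 3 → ℂ) 1]
  map_add' x y := by
    apply Subtype.ext
    funext i
    fin_cases i
    · simp
    · simp
    · simp; ring
  map_smul' c x := by
    apply Subtype.ext
    funext i
    fin_cases i
    · simp
    · simp
    · simp; ring
  left_inv x := by
    funext i
    fin_cases i <;> simp
  right_inv v := by
    have hv : (v : Fin 3 → ℂ) 2 = ma j * (v : Fin 3 → ℂ) 0 + mb j * (v : Fin 3 → ℂ) 1 :=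
      (mem_mp _ _).1 (by rw [← hyp_m3]; exact v.2)
    apply Subtype.ext
    funext i
    fin_cases i
    · simp
    · simp
    · simpa using hv.symm

theorem coord_apply (j : Fin 5) (x : Fin 2 → ℂ) :
    ((coord j x : hyperplane (m3 j)) : Fin 3 → ℂ) = ![x 0, x 1, ma j * x 0 + mb j * x 1] := rfl

theorem comap_l3 (i : Fin 7) (j : Fin 5) :
    (hyperplane (l3 i)).comap ((hyperplane (m3 j)).subtype ∘ₗ (coord j).toLinearMap) =
      hyperplane (l2 i) := by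
  ext x
  rw [Submodule.mem_comap, hyp_l3, mem_lp, mem_l2]
  simp only [LinearMap.coe_comp, Submodule.coe_subtype, LinearEquiv.coe_coe,
    Function.comp_apply, coord_apply, Matrix.cons_val_zero, Matrix.cons_val_one]

theorem mem_comap_m3 (i j : Fin 5) (x : Fin 2 → ℂ) :
    x ∈ (hyperplane (m3 i)).comap ((hyperplane (m3 j)).subtype ∘ₗ (coord j).toLinearMap) ↔
      ma j * x 0 + mb j * x 1 = ma i * x 0 + mb i * x 1 := by
  rw [Submodule.mem_comap, hyp_m3, mem_mp]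
  simp only [LinearMap.coe_comp, Submodule.coe_subtype, LinearEquiv.coe_coe,
    Function.comp_apply, coord_apply, Matrix.cons_val_zero, Matrix.cons_val_one, Matrix.cons_val]

theorem comap_m3 (i j : Fin 5) (hij : i < j) : ∃ t : Fin 7,
    (hyperplane (m3 i)).comap ((hyperplane (m3 j)).subtype ∘ₗ (coord j).toLinearMap) =
      hyperplane (l2 t) := by
  obtain ⟨a0, a1, a2, a3, a4⟩ := ma_vals
  obtain ⟨b0, b1, b2, b3, b4⟩ := mb_vals
  obtain ⟨c0, c1, c2, c3, c4, c5, c6⟩ := du_vals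
  obtain ⟨d0, d1, d2, d3, d4, d5, d6⟩ := dw_vals
  have key : ∀ (t : Fin 7), (∃ c : ℂ, c ≠ 0 ∧ ma j - ma i = c * dw t ∧ mb j - mb i = - c * du t) →
      (hyperplane (m3 i)).comap ((hyperplane (m3 j)).subtype ∘ₗ (coord j).toLinearMap) =
      hyperplane (l2 t) := by
    rintro t ⟨c, hc, h1, h2⟩
    ext x
    rw [mem_comap_m3, mem_l2]
    have h3 : ma j * x 0 + mb j * x 1 - (ma i * x 0 + mb i * x 1) =
        c * (dw t * x 0 - du t * x 1) := by linear_combination x 0 * h1 + x 1 * h2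
    rw [← sub_eq_zero, h3, mul_eq_zero, sub_eq_zero]
    exact ⟨fun h => h.resolve_left hc, Or.inr⟩
  have two : (2 : ℂ) ≠ 0 := two_ne_zero
  have one : (1 : ℂ) ≠ 0 := one_ne_zero
  have none : (-1 : ℂ) ≠ 0 := neg_ne_zero.2 one
  have ntwo : (-2 : ℂ) ≠ 0 := neg_ne_zero.2 two
  fin_cases i <;> fin_cases j <;> first
    | (exfalso; revert hij; decide)
    | (refine ⟨0, key 0 ⟨1, one, ?_, ?_⟩⟩ <;> simp [a0, a1, a2, a3, a4, b0, b1, b2, b3, b4, c0, d0] <;>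
        norm_num <;> done)
    | (refine ⟨0, key 0 ⟨-1, none, ?_, ?_⟩⟩ <;> simp [a0, a1, a2, a3, a4, b0, b1, b2, b3, b4, c0, d0] <;>
        norm_num <;> done)
    | (refine ⟨0, key 0 ⟨-2, ntwo, ?_, ?_⟩⟩ <;> simp [a0, a1, a2, a3, a4, b0, b1, b2, b3, b4, c0, d0] <;>
        norm_num <;> done)
    | (refine ⟨1, key 1 ⟨-1, none, ?_, ?_⟩⟩ <;> simp [a0, a1, a2, a3, a4, b0, b1, b2, b3, b4, c1, d1] <;>
        norm_num <;> done)
    | (refine ⟨1, key 1 ⟨1, one, ?_, ?_⟩⟩ <;> simp [a0, a1, a2, a3, a4, b0, b1, b2, b3, b4, c1, d1] <;>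
        norm_num <;> done)
    | (refine ⟨1, key 1 ⟨2, two, ?_, ?_⟩⟩ <;> simp [a0, a1, a2, a3, a4, b0, b1, b2, b3, b4, c1, d1] <;>
        norm_num <;> done)
    | (refine ⟨2, key 2 ⟨-1, none, ?_, ?_⟩⟩ <;> simp [a0, a1, a2, a3, a4, b0, b1, b2, b3, b4, c2, d2] <;>
        norm_num <;> done)
    | (refine ⟨2, key 2 ⟨1, one, ?_, ?_⟩⟩ <;> simp [a0, a1, a2, a3, a4, b0, b1, b2, b3, b4, c2, d2] <;>
        norm_num <;> done)
    | (refine ⟨3, key 3 ⟨1, one, ?_, ?_⟩⟩ <;> simp [a0, a1, a2, a3, a4, b0, b1, b2, b3, b4, c3, d3] <;>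
        norm_num <;> done)
    | (refine ⟨3, key 3 ⟨-1, none, ?_, ?_⟩⟩ <;> simp [a0, a1, a2, a3, a4, b0, b1, b2, b3, b4, c3, d3] <;>
        norm_num <;> done)

theorem restr_full (j : ℕ) (hj : j < 5) :
    restr (planes 7 (j + 1)) (hyperplane (m3 ⟨j, hj⟩)) (coord ⟨j, hj⟩) = lines2 7 := by
  classical
  rw [restr, planes_erase_m j hj]
  ext L
  rw [Finset.mem_image, mem_lines2]
  constructor
  · rintro ⟨K, hK, rfl⟩
    rcases (mem_planes _ _ _).1 hK with ⟨i, -, rfl⟩ | ⟨i, hi, rfl⟩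
    · exact ⟨i, i.2, (comap_l3 i _).symm⟩
    · obtain ⟨t, ht⟩ := comap_m3 i ⟨j, hj⟩ hi
      exact ⟨t, t.2, ht.symm⟩
  · rintro ⟨i, hi, rfl⟩
    exact ⟨_, (mem_planes _ _ _).2 (Or.inl ⟨i, hi, rfl⟩), comap_l3 i _⟩

theorem indFree_planes : ∀ j : ℕ, j ≤ 5 → InductivelyFree 3 (planes 7 j) := by
  classical
  intro j
  induction j with
  | zero => intro _; exact indFree_planes_zero 7 le_rfl
  | succ j ih =>
    intro hj
    refine .add 2 _ planes_zero_hyp (hyperplane (m3 ⟨j, hj⟩))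
      ((mem_planes _ _ _).2 (Or.inr ⟨⟨j, hj⟩, Nat.lt_succ_self j, rfl⟩)) (coord ⟨j, hj⟩) ?_ ?_
      (1 ::ₘ 6 ::ₘ j ::ₘ 0) (1 ::ₘ 6 ::ₘ 0) ?_ ?_ ?_
    · rw [planes_erase_m j hj]; exact ih (by omega)
    · rw [restr_full]; exact indFree_lines 7 le_rfl
    · rw [planes_erase_m j hj]; exact hasExp_full j (by omega)
    · rw [restr_full]; exact hasExp_lines 6 (by omega)
    · exact (Multiset.cons_le_cons_iff 1).2 ((Multiset.cons_le_cons_iff 6).2 (Multiset.zero_le _))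

theorem Arr_eq : Arr = planes 7 5 := by
  ext H
  rw [mem_Arr, mem_planes]
  constructor
  · rintro (⟨i, rfl⟩ | ⟨i, rfl⟩)
    · exact Or.inl ⟨i, i.2, hyp_l3 i⟩
    · exact Or.inr ⟨i, i.2, hyp_m3 i⟩
  · rintro (⟨i, -, rfl⟩ | ⟨i, -, rfl⟩)
    · exact Or.inl ⟨i, (hyp_l3 i).symm⟩
    · exact Or.inr ⟨i, (hyp_m3 i).symm⟩

theorem Arr_indFree : InductivelyFree 3 Arr := by
  rw [Arr_eq]; exact indFree_planes 5 le_rfl

theorem Arr_hyp' : ∀ H ∈ Arr, IsHyperplane H := Arr_hyp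

theorem Arr_not_le : ¬ symbPow Arr (2 * 2 - 1) ≤ singIdeal Arr ^ 2 :=
  fun h => F_not_mem (h F_mem_symb)

end Pool.Agent.Q38.IndFree
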