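import Pool.Agent.Q38.IF.Defs
import Pool.Agent.Results.MP_8050b7_ag.ContainmentFails

set_option autoImplicit false

/-!
# Saito's criterion
-/

namespace Pool.Agent.Q38.IndFree

open MvPolynomial Pool.Agent.Q39.POG

variable {n : ℕ}

theorem mem_hyp (a x : Fin n → ℂ) : x ∈ hyperplane a ↔ ∑ j, a j * x j = 0 := by
  rw [hyperplane, LinearMap.mem_ker, LinearMap.sum_apply]
  simp

theorem eval_linearForm (a x : Fin n → ℂ) : eval x (linearForm a) = ∑ j, a j * x j := by
  simp [linearForm]

theorem linearForm_homog (a : Fin n → ℂ) : (linearForm a).IsHomogeneous 1 := by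
  refine IsHomogeneous.sum _ _ _ fun j _ => ?_
  simpa using (isHomogeneous_C (Fin n) (a j)).mul (isHomogeneous_X ℂ j)

theorem linearForm_ne_zero {a : Fin n → ℂ} (h : a ≠ 0) : linearForm a ≠ 0 := by
  intro h0
  apply h
  funext i
  have := congrArg (eval (Pi.single i 1)) h0
  rw [eval_linearForm] at this
  simpa [Pi.single_apply] using this

theorem linearForm_prime {a : Fin n → ℂ} (h : a ≠ 0) : Prime (linearForm a) := by
  apply Irreducible.prime
  apply irreducible_of_totalDegree_eq_one ((linearForm_homog a).totalDegree (linearForm_ne_zero h))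
  intro x hx
  rw [isUnit_iff_ne_zero]
  rintro rfl
  apply linearForm_ne_zero h
  ext m
  simpa using hx m

theorem linearForm_smul (c : ℂ) (a : Fin n → ℂ) : linearForm (c • a) = C c * linearForm a := by
  simp only [linearForm, Pi.smul_apply, smul_eq_mul, map_mul, mul_assoc, Finset.mul_sum]

/-- equal hyperplanes have proportional forms -/
theorem eq_smul_of_le {a b : Fin n → ℂ} (hb : b ≠ 0) (h : hyperplane b ≤ hyperplane a) :
    ∃ c : ℂ, a = c • b := by
  obtain ⟨p, hp⟩ : ∃ p, b p ≠ 0 := by
    by_contra hcon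
    push Not at hcon
    exact hb (funext hcon)
  refine ⟨a p / b p, ?_⟩
  funext j
  have h1 : (b p • Pi.single j (1 : ℂ) - b j • Pi.single p (1 : ℂ) : Fin n → ℂ) ∈ hyperplane b := by
    rw [mem_hyp]
    simp only [Pi.sub_apply, Pi.smul_apply, Pi.single_apply, smul_eq_mul, mul_sub,
      Finset.sum_sub_distrib]
    simp
    ring
  have h2 := h h1
  rw [mem_hyp] at h2
  simp only [Pi.sub_apply, Pi.smul_apply, Pi.single_apply, smul_eq_mul, mul_sub,
      Finset.sum_sub_distrib] at h2
  simp at h2
  rw [Pi.smul_apply, smul_eq_mul]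
  field_simp
  linear_combination h2

theorem hyp_le_of_dvd {a b : Fin n → ℂ} (h : linearForm a ∣ linearForm b) :
    hyperplane a ≤ hyperplane b := by
  intro v hv
  rw [mem_hyp] at hv ⊢
  obtain ⟨G, hG⟩ := h
  have := congrArg (eval v) hG
  rw [eval_linearForm, map_mul, eval_linearForm, hv, zero_mul] at this
  exact this

theorem hyperplane_smul {c : ℂ} (hc : c ≠ 0) (a : Fin n → ℂ) :
    hyperplane (c • a) = hyperplane a := by
  ext x
  rw [mem_hyp, mem_hyp]
  simp only [Pi.smul_apply, smul_eq_mul, mul_assoc, ← Finset.mul_sum, mul_eq_zero, hc, false_or]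

theorem relPrime {a b : Fin n → ℂ} (ha : a ≠ 0) (hb : b ≠ 0) (hab : hyperplane a ≠ hyperplane b) :
    IsRelPrime (linearForm a) (linearForm b) := by
  rw [(linearForm_prime ha).irreducible.isRelPrime_iff_not_dvd]
  intro h
  obtain ⟨c, hc⟩ := eq_smul_of_le ha (hyp_le_of_dvd h)
  have hc0 : c ≠ 0 := by
    rintro rfl
    exact hb (by rw [hc, zero_smul])
  exact hab (by rw [hc, hyperplane_smul hc0])

/-- membership in `D(A)` for a finite family of forms -/
theorem mem_derivs {ι : Type} {A : Finset (Submodule ℂ (Fin n → ℂ))} (a : ι → Fin n → ℂ)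
    (ha : ∀ i, a i ≠ 0) (hA : ∀ H, H ∈ A ↔ ∃ i, hyperplane (a i) = H)
    (θ : Fin n → MvPolynomial (Fin n) ℂ) :
    θ ∈ derivs A ↔ ∀ i, linearForm (a i) ∣ ∑ j, C (a i j) * θ j := by
  constructor
  · intro h i
    exact h (a i) (ha i) ((hA _).2 ⟨i, rfl⟩)
  · intro h b hb hbA
    obtain ⟨i, hi⟩ := (hA _).1 hbA
    obtain ⟨c, hc⟩ := eq_smul_of_le (ha i) hi.le
    have hc0 : c ≠ 0 := by
      rintro rfl
      exact hb (by rw [hc, zero_smul])
    have h1 : ∑ j, C (b j) * θ j = C c * ∑ j, C (a i j) * θ j := by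
      rw [Finset.mul_sum]
      refine Finset.sum_congr rfl fun j _ => ?_
      rw [hc, Pi.smul_apply, smul_eq_mul, map_mul]; ring
    rw [h1, hc, linearForm_smul]
    exact mul_dvd_mul_left _ (h i)

theorem prod_dvd_det {ι : Type} [Fintype ι] (a : ι → Fin n → ℂ) (ha : ∀ i, a i ≠ 0)
    (hinj : Function.Injective fun i => hyperplane (a i))
    (η : Matrix (Fin n) (Fin n) (MvPolynomial (Fin n) ℂ))
    (hη : ∀ r i, linearForm (a i) ∣ ∑ j, C (a i j) * η r j) : ∏ i, linearForm (a i) ∣ η.det := by
  apply Finset.prod_dvd_of_isRelPrime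
  · intro i _ j _ hij
    exact relPrime (ha i) (ha j) fun h => hij (hinj h)
  · intro i _
    obtain ⟨p, hp⟩ : ∃ p, a i p ≠ 0 := by
      by_contra hcon
      push Not at hcon
      exact ha i (funext hcon)
    have h1 : η.mulVec (fun j => C (a i j)) = fun r => ∑ j, C (a i j) * η r j := by
      funext r
      simp only [Matrix.mulVec, dotProduct]
      exact Finset.sum_congr rfl fun j _ => mul_comm _ _
    have h2 : η.adjugate.mulVec (fun r => ∑ j, C (a i j) * η r j) =
        η.det • fun j => (C (a i j) : MvPolynomial (Fin n) ℂ) := by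
      rw [← h1, Matrix.mulVec_mulVec, Matrix.adjugate_mul, Matrix.smul_mulVec, Matrix.one_mulVec]
    have h3 := congrFun h2 p
    have h4 : linearForm (a i) ∣ η.det * C (a i p) := by
      have : η.det * C (a i p) = (η.det • fun j => (C (a i j) : MvPolynomial (Fin n) ℂ)) p := rfl
      rw [this, ← h3]
      simp only [Matrix.mulVec, dotProduct]
      exact Finset.dvd_sum fun r _ => dvd_mul_of_dvd_right (hη r i) _
    refine ((linearForm_prime (ha i)).dvd_or_dvd h4).resolve_right fun h5 => ?_
    have hu : IsUnit (C (a i p) : MvPolynomial (Fin n) ℂ) := (IsUnit.mk0 _ hp).map C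
    exact (linearForm_prime (ha i)).not_isUnit (isUnit_of_dvd_unit h5 hu)

/-- **Saito's criterion.** -/
theorem hasExp_of_det {ι : Type} [Fintype ι] {A : Finset (Submodule ℂ (Fin n → ℂ))} (a : ι → Fin n → ℂ)
    (ha : ∀ i, a i ≠ 0) (hinj : Function.Injective fun i => hyperplane (a i))
    (hA : ∀ H, H ∈ A ↔ ∃ i, hyperplane (a i) = H)
    (θ : Matrix (Fin n) (Fin n) (MvPolynomial (Fin n) ℂ))
    (hθ : ∀ r i, linearForm (a i) ∣ ∑ j, C (a i j) * θ r j) (e : Fin n → ℕ)
    (hhom : ∀ r j, (θ r j).IsHomogeneous (e r)) (hdet : θ.det = ∏ i, linearForm (a i)) :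
    HasExp A (Finset.univ.val.map e) := by
  classical
  have hQ : (∏ i, linearForm (a i)) ≠ 0 :=
    Finset.prod_ne_zero_iff.2 fun i _ => linearForm_ne_zero (ha i)
  have hmem : ∀ r, θ r ∈ derivs A := fun r => (mem_derivs a ha hA _).2 (hθ r)
  let v : Fin n → derivs A := fun r => ⟨θ r, hmem r⟩
  have hli : LinearIndependent (MvPolynomial (Fin n) ℂ) v := by
    rw [Fintype.linearIndependent_iff]
    intro g hg
    have h1 : Matrix.vecMul g θ = 0 := by
      funext j
      have h2 := congrArg (fun w : derivs A => (w : Fin n → MvPolynomial (Fin n) ℂ) j) hg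
      simp only [Submodule.coe_sum, Submodule.coe_smul, Finset.sum_apply, Pi.smul_apply,
        smul_eq_mul, Submodule.coe_zero, Pi.zero_apply, v] at h2
      simpa [Matrix.vecMul, dotProduct] using h2
    have := Matrix.eq_zero_of_vecMul_eq_zero (by rw [hdet]; exact hQ) h1
    exact fun i => congrFun this i
  have hsp : ⊤ ≤ Submodule.span (MvPolynomial (Fin n) ℂ) (Set.range v) := by
    rintro ⟨η, hη⟩ -
    have hη' := (mem_derivs a ha hA η).1 hη
    -- Cramer
    have hd : ∀ i, ∏ i, linearForm (a i) ∣ (θ.updateRow i η).det := by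
      intro i
      apply prod_dvd_det a ha hinj
      intro r k
      by_cases hr : r = i
      · subst hr
        simpa using hη' k
      · simpa [Matrix.updateRow_ne hr] using hθ r k
    choose g hg using hd
    have key : η = ∑ i, g i • θ i := by
      funext j
      have h1 : (θ.transpose.mulVec (θ.transpose.cramer η)) j = (θ.transpose.det • η) j := by
        rw [Matrix.mulVec_cramer]
      rw [Matrix.det_transpose, hdet, Pi.smul_apply, smul_eq_mul] at h1
      have h2 : (θ.transpose.mulVec (θ.transpose.cramer η)) j =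
          (∏ i, linearForm (a i)) * ∑ i, g i * θ i j := by
        simp only [Matrix.mulVec, dotProduct, Matrix.transpose_apply, Finset.mul_sum]
        refine Finset.sum_congr rfl fun i _ => ?_
        rw [Matrix.cramer_transpose_apply, hg i]; ring
      rw [h2] at h1
      have h3 := mul_left_cancel₀ hQ h1
      rw [← h3, Finset.sum_apply]
      rfl
    have : (⟨η, hη⟩ : derivs A) = ∑ i, g i • v i := by
      apply Subtype.ext
      rw [Submodule.coe_sum]
      exact key
    rw [this]
    exact Submodule.sum_mem _ fun i _ => Submodule.smul_mem _ _ (Submodule.subset_span ⟨i, rfl⟩)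
  refine ⟨e, Module.Basis.mk hli hsp, ?_, rfl⟩
  intro i j
  rw [Module.Basis.mk_apply]
  exact hhom i j

end Pool.Agent.Q38.IndFree
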